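import Pool.Agent.TH747.HS.FS

/-! Predicates which are enumerated uniformly from positive information about the members of a
family of sets. -/

namespace Pool.Agent.N640.HU

open Pool.Agent.H645R2.HT Pool.Agent.Helper446 Pool.Agent.Helper446.RE
  Pool.Agent.Helper446.Oracle

universe u v

/-- `S X a` is enumerated, uniformly for all members `X` of the family `𝓕`, from positive
information about `X`. -/
def UE {α : Type u} [Primcodable α] (𝓕 : Set ℕ → Prop) (S : Set ℕ → α → Prop) : Prop :=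
  ∃ R : α → List ℕ → Prop, REPred (fun x : α × List ℕ => R x.1 x.2) ∧
    ∀ X, 𝓕 X → ∀ a, S X a ↔ ∃ D, R a D ∧ ∀ x ∈ D, x ∈ X

variable {α : Type u} {β : Type v} [Primcodable α] [Primcodable β] {𝓕 : Set ℕ → Prop}

theorem UE.of_eq {S T : Set ℕ → α → Prop} (h : UE 𝓕 S) (hST : ∀ X, 𝓕 X → ∀ a, S X a ↔ T X a) :
    UE 𝓕 T := by
  obtain ⟨R, hR, h⟩ := h
  exact ⟨R, hR, fun X hX a => (hST X hX a).symm.trans (h X hX a)⟩

theorem UE.of_re {S : α → Prop} (h : REPred S) : UE 𝓕 (fun _ a => S a) := by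
  refine ⟨fun a _ => S a, RE.comp h Computable.fst, fun X _ a => ⟨fun h => ⟨[], h, by simp⟩, ?_⟩⟩
  rintro ⟨_, h, _⟩
  exact h

theorem UE.mem {f : α → ℕ} (hf : Computable f) : UE 𝓕 (fun X a => f a ∈ X) := by
  refine ⟨fun a D => f a ∈ D, RE.mem_list (f := fun x : α × List ℕ => f x.1)
    (l := fun x : α × List ℕ => x.2) (by fun_prop) (by fun_prop), fun X _ a => ?_⟩
  constructor
  · intro h
    exact ⟨[f a], by simp, fun x hx => by simp at hx; rw [hx]; exact h⟩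
  · rintro ⟨D, h1, h2⟩
    exact h2 _ h1

theorem UE.comp {S : Set ℕ → β → Prop} (h : UE 𝓕 S) {f : α → β} (hf : Computable f) :
    UE 𝓕 (fun X a => S X (f a)) := by
  obtain ⟨R, hR, h⟩ := h
  exact ⟨fun a D => R (f a) D, RE.comp hR (f := fun x : α × List ℕ => (f x.1, x.2))
    (by fun_prop), fun X hX a => h X hX (f a)⟩

theorem UE.and {S T : Set ℕ → α → Prop} (hS : UE 𝓕 S) (hT : UE 𝓕 T) :
    UE 𝓕 (fun X a => S X a ∧ T X a) := by
  obtain ⟨R, hR, h1⟩ := hS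
  obtain ⟨R', hR', h2⟩ := hT
  refine ⟨fun a D => ∃ x : List ℕ × List ℕ, R a x.1 ∧ R' a x.2 ∧ D = x.1 ++ x.2, ?_,
    fun X hX a => ?_⟩
  · refine RE.ex (p := fun (y : α × List ℕ) (x : List ℕ × List ℕ) => R y.1 x.1 ∧ R' y.1 x.2 ∧
      y.2 = x.1 ++ x.2) ?_
    refine RE.and ?_ (RE.and ?_ (RE.eq (by fun_prop) (by fun_prop)))
    · exact RE.comp hR (f := fun y : (α × List ℕ) × (List ℕ × List ℕ) => (y.1.1, y.2.1))
        (by fun_prop)
    · exact RE.comp hR' (f := fun y : (α × List ℕ) × (List ℕ × List ℕ) => (y.1.1, y.2.2))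
        (by fun_prop)
  · constructor
    · rintro ⟨h3, h4⟩
      obtain ⟨c, hc1, hc2⟩ := (h1 X hX a).1 h3
      obtain ⟨d, hd1, hd2⟩ := (h2 X hX a).1 h4
      refine ⟨_, ⟨(c, d), hc1, hd1, rfl⟩, fun x hx => ?_⟩
      rcases List.mem_append.1 hx with h | h
      exacts [hc2 x h, hd2 x h]
    · rintro ⟨_, ⟨⟨c, d⟩, hc1, hd1, rfl⟩, h3⟩
      exact ⟨(h1 X hX a).2 ⟨c, hc1, fun x hx => h3 x (List.mem_append_left _ hx)⟩,
        (h2 X hX a).2 ⟨d, hd1, fun x hx => h3 x (List.mem_append_right _ hx)⟩⟩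

theorem UE.ex {S : Set ℕ → α → β → Prop} (hS : UE 𝓕 fun X (x : α × β) => S X x.1 x.2) :
    UE 𝓕 (fun X a => ∃ b, S X a b) := by
  obtain ⟨R, hR, h1⟩ := hS
  refine ⟨fun a D => ∃ b, R (a, b) D, ?_, fun X hX a => ?_⟩
  · refine RE.ex (p := fun (y : α × List ℕ) (b : β) => R (y.1, b) y.2) ?_
    exact RE.comp hR (f := fun y : (α × List ℕ) × β => ((y.1.1, y.2), y.1.2)) (by fun_prop)
  · constructor
    · rintro ⟨b, hb⟩
      obtain ⟨D, h2, h3⟩ := (h1 X hX (a, b)).1 hb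
      exact ⟨D, ⟨b, h2⟩, h3⟩
    · rintro ⟨D, ⟨b, h2⟩, h3⟩
      exact ⟨b, (h1 X hX (a, b)).2 ⟨D, h2, h3⟩⟩

theorem UE.sub_list {l : α → List ℕ} (hl : Computable l) :
    UE 𝓕 (fun X a => ∀ x ∈ l a, x ∈ X) := by
  refine ⟨fun a D => D = l a, RE.eq (f := fun x : α × List ℕ => x.2)
    (g := fun x : α × List ℕ => l x.1) (by fun_prop) (by fun_prop), fun X _ a => ?_⟩
  constructor
  · intro h
    exact ⟨l a, rfl, h⟩
  · rintro ⟨D, rfl, h⟩
    exact h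

/-- Uniform enumerability implies enumerability. -/
theorem UE.reIn {S : Set ℕ → α → Prop} (h : UE 𝓕 S) {X : Set ℕ} (hX : 𝓕 X) :
    REIn X (S X) := by
  obtain ⟨R, hR, h⟩ := h
  refine ⟨fun a c => R a c.1, RE.comp hR (f := fun x : α × (List ℕ × List ℕ) => (x.1, x.2.1))
    (by fun_prop), fun a => ?_⟩
  rw [h X hX a]
  constructor
  · rintro ⟨D, h1, h2⟩
    exact ⟨(D, []), h1, h2, by simp⟩
  · rintro ⟨c, h1, h2⟩
    exact ⟨c.1, h1, h2.1⟩

/-- Sums of nonempty subsets of `X` with at most `k` elements. -/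
def Sk (k : ℕ) (X : Set ℕ) : Set ℕ :=
  {n | ∃ F : Finset ℕ, F.Nonempty ∧ (F : Set ℕ) ⊆ X ∧ F.card ≤ k ∧ ∑ x ∈ F, x = n}

theorem ue_aux (P : ℕ → ℕ → Prop) (hP : REPred fun x : ℕ × ℕ => P x.1 x.2) :
    UE 𝓕 (fun X n => ∃ g, (0 < (L g).length ∧ P n (L g).length ∧ (L g).sum = n) ∧
      ∀ x ∈ L g, x ∈ X) := by
  refine UE.ex (S := fun X n g => (0 < (L g).length ∧ P n (L g).length ∧ (L g).sum = n) ∧
      ∀ x ∈ L g, x ∈ X) ?_
  refine UE.and (UE.of_re ?_) (UE.sub_list (by fun_prop))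
  refine RE.and (RE.lt (by fun_prop) (by fun_prop)) (RE.and ?_ (RE.eq ?_ (by fun_prop)))
  · exact RE.comp hP (f := fun x : ℕ × ℕ => (x.1, (L x.2).length)) (by fun_prop)
  · exact Pool.Agent.TH747.HT.c_sum (by fun_prop)

theorem ue_Sk (k : ℕ) : UE 𝓕 (fun X (n : ℕ) => n ∈ Sk k X) := by
  refine (ue_aux (𝓕 := 𝓕) (fun _ m => m ≤ k) (RE.le (by fun_prop) (by fun_prop))).of_eq
    fun X _ n => ?_
  constructor
  · rintro ⟨g, ⟨h1, h2, h3⟩, h4⟩
    refine ⟨(L g).toFinset, ?_, ?_, ?_, ?_⟩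
    · rw [List.toFinset_nonempty_iff]
      rintro hc
      rw [hc] at h1
      exact absurd h1 (by simp)
    · intro x hx
      exact h4 x (by simpa using hx)
    · exact (List.toFinset_card_le _).trans h2
    · rw [← Pool.Agent.TH747.HT.sum_L, h3]
  · rintro ⟨F, h1, h2, h3, h4⟩
    obtain ⟨g, hg⟩ := Pool.Agent.TH747.HT.exists_code F
    have hG : (L g).toFinset = F := by
      ext x
      rw [List.mem_toFinset, hg]
    refine ⟨g, ⟨?_, ?_, ?_⟩, fun x hx => h2 ((hg x).1 hx)⟩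
    · obtain ⟨x, hx⟩ := h1
      exact List.length_pos_of_mem ((hg x).2 hx)
    · have h5 : (L g).toFinset.card = (L g).length :=
        List.toFinset_card_of_nodup ((L_sorted g).pairwise.imp fun h => ne_of_lt h)
      rw [← h5, hG]
      exact h3
    · rw [Pool.Agent.TH747.HT.sum_L, hG, h4]

theorem ue_FS : UE 𝓕 (fun X (n : ℕ) => n ∈ Pool.Agent.TH747.HS.FS X) := by
  refine (ue_aux (𝓕 := 𝓕) (fun _ _ => True) (RE.const True)).of_eq fun X _ n => ?_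
  constructor
  · rintro ⟨g, ⟨h1, -, h3⟩, h4⟩
    exact Pool.Agent.TH747.HS.mem_FS_of ⟨h1, h4, h3⟩
  · intro h
    obtain ⟨g, -, h1, h2, h3⟩ := Pool.Agent.TH747.HS.exists_cod h
    exact ⟨g, ⟨h1, trivial, h3⟩, h2⟩

end Pool.Agent.N640.HU
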