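import Pool.Agent.N640.HU.Rel
import Pool.Agent.N640.HU.UE

/-! Solutions of the two-colouring `cf` compute the double jump uniformly. -/

namespace Pool.Agent.N640.HU

open Filter Pool.Agent.H645R2.HT Pool.Agent.TH747.HT Pool.Agent.TH747.HS
  Pool.Agent.Helper446 Pool.Agent.Helper446.RE

/-- The properties of the set of sums of a solution which are used. -/
structure Good (V : Ultrafilter ℕ) (Y : Set ℕ) : Prop where
  far : FarU V
  pos : 0 ∉ Y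
  hom : ∀ h ∈ Y, Sm V 2 (fun l => cf (h + l) = cf h)
  rich : ∀ N, ∃ h ∈ Y, N ≤ la h ∧ ∀ᶠ l in (V : Filter ℕ), h + l ∈ Y

variable {V : Ultrafilter ℕ} {Y : Set ℕ}

theorem Good.pos' (hG : Good V Y) {h : ℕ} (hh : h ∈ Y) : 0 < h :=
  Nat.pos_of_ne_zero fun h0 => hG.pos (h0 ▸ hh)

/-- The first jump. -/
theorem Good.out (hG : Good V Y) {z : ℕ} :
    (∀ s, W0 s z = false) ↔ ∃ h, h ∈ Y ∧ z < la h + 1 ∧ W0 (mu h) z = false := by
  constructor
  · intro hz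
    obtain ⟨h, hh, h1, -⟩ := hG.rich z
    exact ⟨h, hh, by omega, hz _⟩
  · rintro ⟨h, hh, h1, h2⟩ s
    by_contra hc
    rw [Bool.not_eq_false] at hc
    obtain ⟨t, ht, ht'⟩ := ys_zero (x := la h) (by omega : z ≤ la h) hc h2
    obtain ⟨b, hb0, hb1, hb2, -⟩ := exists_lim (la h)
    obtain ⟨g, hg⟩ := exists_Gm (ys (la h)) (mu h)
    have h3 := (rel_main hG.far (hG.pos' hh) (hG.hom h hh) hb0 hb1 hb2 hg).1
    have h4 := hg.1 t ht
    omega

/-- The second jump. -/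
theorem Good.notA (hG : Good V Y) {n : ℕ} :
    ¬ A W0 p0 n ↔ ∃ h, h ∈ Y ∧ ∃ v, (n < la h + 1 ∧ v ∈ rv [0] (wd (ys (la h)) h) ∧
      (∃ t, mu h < t ∧ ys (la h) t = v) ∧ ∀ z < v, p0 z ≠ n ∨ ∃ s, W0 s z = true) ∧
      ¬ ∃ t, mu h < t ∧ ys (la h) t < v := by
  constructor
  · intro hA
    obtain ⟨h, hh, h1, h2⟩ := hG.rich n
    obtain ⟨b, hb0, hb1, ⟨N, hN⟩, -⟩ := exists_lim (la h)
    obtain ⟨l, hl1, hl2, hl3⟩ := (h2.and (hG.far (max N (mu h)))).exists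
    have hsep : Sep h l := by unfold Pool.Agent.H645R2.HT.Sep; omega
    have e1 : la (h + l) = la h := la_add (hG.pos' hh) hsep
    have e2 : mu (h + l) = mu l := mu_add hl2 hsep
    have e3 := la_le_mu hl2
    have hg : Gm (ys (la (h + l))) (mu (h + l)) b := by
      rw [e1, e2]
      exact ⟨fun t ht => hN t (by omega), hb1 _⟩
    have h3 := rel_main hG.far (hG.pos' hl1) (hG.hom _ hl1) hb0
      (by rw [e1]; exact hb1) (by rw [e1]; exact ⟨N, hN⟩) hg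
    refine ⟨h + l, hl1, b, ⟨by omega, h3.2.2.2 rfl, hg.2, fun z _ => ?_⟩, ?_⟩
    · by_contra hc
      push Not at hc
      exact hA ⟨z, hc.1, fun s => by simpa using hc.2 s⟩
    · rintro ⟨t, ht, ht'⟩
      have := hg.1 t ht
      omega
  · rintro ⟨h, hh, v, ⟨h1, h2, h3, h4⟩, h5⟩ hA
    obtain ⟨b, hb0, hb1, hb2, hb3⟩ := exists_lim (la h)
    have hg : Gm (ys (la h)) (mu h) v := ⟨fun t ht => by
      by_contra hc
      exact h5 ⟨t, ht, by omega⟩, h3⟩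
    have h6 := (rel_main hG.far (hG.pos' hh) (hG.hom h hh) hb0 hb1 hb2 hg).2.2.1 h2
    obtain ⟨z, hz, hz1, hz2⟩ := hb3 n (by omega) hA
    rcases h4 z (by omega) with h7 | ⟨s, hs⟩
    · exact h7 hz1
    · rw [hz2 s] at hs
      cases hs

section uniform

variable {𝓕 : Set ℕ → Prop} {Yf : Set ℕ → Set ℕ}

theorem ue_out (hY : UE 𝓕 fun X (n : ℕ) => n ∈ Yf X) (hG : ∀ X, 𝓕 X → ∃ V, Good V (Yf X)) :
    UE 𝓕 (fun _ (z : ℕ) => ∀ s, W0 s z = false) := by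
  have h : UE 𝓕 (fun X (z : ℕ) => ∃ h, h ∈ Yf X ∧ z < la h + 1 ∧ W0 (mu h) z = false) := by
    refine UE.ex (S := fun X (z h : ℕ) => h ∈ Yf X ∧ z < la h + 1 ∧ W0 (mu h) z = false) ?_
    refine UE.and (hY.comp (f := fun x : ℕ × ℕ => x.2) (by fun_prop)) (UE.of_re ?_)
    refine RE.and (RE.lt (by fun_prop) (Computable.succ.comp (c_la (by fun_prop))))
      (RE.eq ?_ (by fun_prop))
    exact c_W0.comp (g := fun x : ℕ × ℕ => (mu x.2, x.1))
      (Computable.pair (c_mu (by fun_prop)) (by fun_prop))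
  refine h.of_eq fun X hX z => ?_
  obtain ⟨V, hV⟩ := hG X hX
  exact hV.out.symm

theorem ue_not (hY : UE 𝓕 fun X (n : ℕ) => n ∈ Yf X) (hG : ∀ X, 𝓕 X → ∃ V, Good V (Yf X))
    {p : ℕ → Prop} (hp : REPred p) : UE 𝓕 (fun _ (n : ℕ) => ¬ p n) := by
  obtain ⟨e, he⟩ := univ_W0 hp
  refine ((ue_out hY hG).comp (f := fun n : ℕ => Nat.pair e n) (by fun_prop)).of_eq
    fun X _ n => ?_
  rw [he n]
  push Not
  exact forall_congr' fun s => by simp

/-- The complement of the double jump. -/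
theorem ue_notA (hY : UE 𝓕 fun X (n : ℕ) => n ∈ Yf X) (hG : ∀ X, 𝓕 X → ∃ V, Good V (Yf X)) :
    UE 𝓕 (fun _ (n : ℕ) => ¬ A W0 p0 n) := by
  have hlt : REPred fun w : ℕ => ∃ t, mu w.unpair.1 < t ∧ ys (la w.unpair.1) t < w.unpair.2 := by
    refine RE.exN (p := fun (w : ℕ) t => mu w.unpair.1 < t ∧
      ys (la w.unpair.1) t < w.unpair.2) ?_
    refine RE.and (RE.lt (c_mu (by fun_prop)) (by fun_prop)) (RE.lt ?_ (by fun_prop))
    exact c_ys (c_la (by fun_prop)) (by fun_prop)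
  have h1 := ue_not hY hG hlt
  have h : UE 𝓕 (fun X (n : ℕ) => ∃ h, ∃ v, h ∈ Yf X ∧ (n < la h + 1 ∧
      v ∈ rv [0] (wd (ys (la h)) h) ∧
      (∃ t, mu h < t ∧ ys (la h) t = v) ∧ ∀ z < v, p0 z ≠ n ∨ ∃ s, W0 s z = true) ∧
      ¬ ∃ t, mu h < t ∧ ys (la h) t < v) := by
    refine UE.ex (S := fun X (n h : ℕ) => ∃ v, h ∈ Yf X ∧ (n < la h + 1 ∧
      v ∈ rv [0] (wd (ys (la h)) h) ∧
      (∃ t, mu h < t ∧ ys (la h) t = v) ∧ ∀ z < v, p0 z ≠ n ∨ ∃ s, W0 s z = true) ∧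
      ¬ ∃ t, mu h < t ∧ ys (la h) t < v) ?_
    refine UE.ex (S := fun X (x : ℕ × ℕ) (v : ℕ) => x.2 ∈ Yf X ∧ (x.1 < la x.2 + 1 ∧
      v ∈ rv [0] (wd (ys (la x.2)) x.2) ∧
      (∃ t, mu x.2 < t ∧ ys (la x.2) t = v) ∧ ∀ z < v, p0 z ≠ x.1 ∨ ∃ s, W0 s z = true) ∧
      ¬ ∃ t, mu x.2 < t ∧ ys (la x.2) t < v) ?_
    refine UE.and (hY.comp (f := fun x : (ℕ × ℕ) × ℕ => x.1.2) (by fun_prop))
      (UE.and (UE.of_re ?_) ?_)
    · refine RE.and (RE.lt (by fun_prop) (Computable.succ.comp (c_la (by fun_prop))))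
        (RE.and ?_ (RE.and ?_ ?_))
      · exact RE.mem_list (f := fun x : (ℕ × ℕ) × ℕ => x.2) (by fun_prop)
          (c_rv0 (c_word (by fun_prop)))
      · refine RE.exN (p := fun (x : (ℕ × ℕ) × ℕ) t => mu x.1.2 < t ∧
          ys (la x.1.2) t = x.2) ?_
        refine RE.and (RE.lt (c_mu (by fun_prop)) (by fun_prop)) (RE.eq ?_ (by fun_prop))
        exact c_ys (c_la (by fun_prop)) (by fun_prop)
      · refine RE.all_lt (p := fun (x : (ℕ × ℕ) × ℕ) z => p0 z ≠ x.1.1 ∨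
          ∃ s, W0 s z = true) ?_ (by fun_prop)
        refine RE.or (RE.ne (c_p0.comp (by fun_prop)) (by fun_prop)) ?_
        refine RE.exN (p := fun (x : ((ℕ × ℕ) × ℕ) × ℕ) s => W0 s x.2 = true) ?_
        exact RE.of_bool (c_W0.comp (g := fun x : (((ℕ × ℕ) × ℕ) × ℕ) × ℕ => (x.2, x.1.2))
          (by fun_prop))
    · refine (h1.comp (f := fun x : (ℕ × ℕ) × ℕ => Nat.pair x.1.2 x.2) (by fun_prop)).of_eq
        fun X _ x => ?_
      rw [Nat.unpair_pair]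
  refine h.of_eq fun X hX n => ?_
  obtain ⟨V, hV⟩ := hG X hX
  rw [hV.notA]
  exact ⟨fun ⟨h, v, h1, h2⟩ => ⟨h, h1, v, h2⟩, fun ⟨h, h1, v, h2⟩ => ⟨h, v, h1, h2⟩⟩

/-- The double jump. -/
theorem ue_A (hY : UE 𝓕 fun X (n : ℕ) => n ∈ Yf X) (hG : ∀ X, 𝓕 X → ∃ V, Good V (Yf X)) :
    UE 𝓕 (fun _ (n : ℕ) => A W0 p0 n) := by
  unfold A
  refine UE.ex (S := fun _ (n z : ℕ) => p0 z = n ∧ ∀ s, W0 s z = false) ?_
  refine UE.and (UE.of_re (RE.eq (c_p0.comp (by fun_prop)) (by fun_prop))) ?_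
  exact (ue_out hY hG).comp (f := fun x : ℕ × ℕ => x.2) (by fun_prop)

/-- The uniform reduction of an arbitrary `Σ⁰₂` set. -/
theorem uniform (hY : UE 𝓕 fun X (n : ℕ) => n ∈ Yf X) (hG : ∀ X, 𝓕 X → ∃ V, Good V (Yf X))
    {R : ℕ → ℕ → ℕ → Bool} (hR : Computable fun q : ℕ × ℕ × ℕ => R q.1 q.2.1 q.2.2) :
    UE 𝓕 (fun _ (n : ℕ) => ∃ a, ∀ b, R n a b = true) ∧
      UE 𝓕 (fun _ (n : ℕ) => ¬ ∃ a, ∀ b, R n a b = true) := by
  obtain ⟨e, he⟩ := sigma2_univ hR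
  constructor
  · exact ((ue_A hY hG).comp (f := fun n : ℕ => Nat.pair e n) (by fun_prop)).of_eq
      fun X _ n => (he n).symm
  · exact ((ue_notA hY hG).comp (f := fun n : ℕ => Nat.pair e n) (by fun_prop)).of_eq
      fun X _ n => not_congr (he n).symm

end uniform

/-- Solutions of Hindman's theorem. -/
theorem good_FS {X : Set ℕ} (hX : X.Infinite) (h0 : 0 ∉ X)
    (hc : ∃ i, ∀ F : Finset ℕ, (F : Set ℕ) ⊆ X → F.Nonempty → cf (∑ n ∈ F, n) = i) :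
    ∃ V, Good V (FS X) := by
  obtain ⟨U, hU, hUX⟩ := exists_idem hX
    (fun x hx => Nat.pos_of_ne_zero fun h => h0 (h ▸ hx))
  obtain ⟨i, hi⟩ := hc
  refine ⟨U, farU_idem hU, zero_notMem_FS h0, ?_, fun N => ?_⟩
  · rintro h ⟨F, f1, f2, rfl⟩
    rw [Sm_idem hU (by omega)]
    filter_upwards [hUX F] with l hl
    obtain ⟨G, g1, g2, g3, rfl⟩ := hl
    rw [← Finset.sum_union g3, hi F f2 f1]
    refine hi _ ?_ (f1.mono Finset.subset_union_left)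
    rw [Finset.coe_union]
    exact Set.union_subset f2 g2
  · obtain ⟨n, ⟨F, f1, f2, -, rfl⟩, -, hn⟩ := ((hUX ∅).and (hU.far N)).exists
    refine ⟨_, ⟨F, f1, f2, rfl⟩, hn.le, ?_⟩
    filter_upwards [hUX F] with l hl
    obtain ⟨G, g1, g2, g3, rfl⟩ := hl
    refine ⟨F ∪ G, f1.mono Finset.subset_union_left, ?_, ?_⟩
    · rw [Finset.coe_union]
      exact Set.union_subset f2 g2
    · rw [Finset.sum_union g3]

/-- Solutions for sums of at most four elements. -/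
theorem good_Sk {X : Set ℕ} (h0 : 0 ∉ X) (hX : ∀ N, ∃ x ∈ X, 3 ^ N ∣ x)
    (hc : ∃ i, ∀ F : Finset ℕ, (F : Set ℕ) ⊆ X → F.Nonempty → F.card ≤ 4 →
      cf (∑ n ∈ F, n) = i) :
    ∃ V, Good V (Sk 2 X) := by
  obtain ⟨V, hV, hVX⟩ := exists_farU h0 hX
  obtain ⟨i, hi⟩ := hc
  refine ⟨V, hV, ?_, ?_, fun N => ?_⟩
  · rintro ⟨F, ⟨x, hx⟩, h2, -, h3⟩
    have h4 : x = 0 := Finset.sum_eq_zero_iff.1 h3 x hx
    exact h0 (h4 ▸ h2 hx)
  · rintro h ⟨F, f1, f2, f3, rfl⟩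
    refine Sm_mono ?_ (Sm_mem hV hVX (k := 2) (∑ x ∈ F, x))
    rintro l ⟨G, g1, g2, g3, rfl⟩
    have hd : Disjoint F G := by
      rw [Finset.disjoint_left]
      intro x hx hx'
      have h4 := g3 x hx'
      have h5 := Finset.single_le_sum (f := fun x : ℕ => x) (fun _ _ => Nat.zero_le _) hx
      omega
    have e := Finset.sum_union (f := fun x : ℕ => x) hd
    rw [← e, hi F f2 f1 (by omega)]
    refine hi _ ?_ (f1.mono Finset.subset_union_left) ?_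
    · rw [Finset.coe_union]
      exact Set.union_subset f2 g1
    · rw [Finset.card_union_of_disjoint hd, g2]
      omega
  · obtain ⟨x, hx, -, hN⟩ := (hVX.and (hV N)).exists
    refine ⟨x, ⟨{x}, by simp, by simpa using hx, by simp, by simp⟩, hN.le, ?_⟩
    filter_upwards [hVX, hV x] with l hl hl'
    have hne : x ≠ l := by
      rintro rfl
      have h5 := dg_lt (mem_L.1 (la_mem hl'.1))
      omega
    refine ⟨{x, l}, by simp, ?_, ?_, ?_⟩
    · intro w hw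
      simp only [Finset.coe_insert, Finset.coe_singleton, Set.mem_insert_iff,
        Set.mem_singleton_iff] at hw
      rcases hw with rfl | rfl <;> assumption
    · rw [Finset.card_pair hne]
    · rw [Finset.sum_pair hne]

end Pool.Agent.N640.HU
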