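import Pool.Agent.N640.HU.Seq
import Pool.Agent.TH747.HS.ClusK
import Pool.Agent.TH747.HS.FS

/-! The two-colouring, and the relation between the colours of `h` and of `h + l` for typical
sums `l` of two elements. -/

namespace Pool.Agent.N640.HU

open Filter Pool.Agent.H645R2.HT Pool.Agent.TH747.HT Pool.Agent.TH747.HS
  Pool.Agent.Helper446 Pool.Agent.Helper446.RE

/-- The number of clusters of letters other than `0` in the word of `n`. -/
def nz (n : ℕ) : ℕ := cl [0] (wd (ys (la n)) n)

/-- The colouring: the parity of this number. -/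
def cf (n : ℕ) : Bool := decide (nz n % 2 = 1)

theorem cf_eq_iff {m n : ℕ} : cf m = cf n ↔ nz m % 2 = nz n % 2 := by
  unfold cf
  rw [decide_eq_decide]
  omega

/-- Joining a word and a word with large letters. -/
theorem join_lt {u w : List ℕ} {g b : ℕ} (hg : g < b) (hw : ∀ v ∈ w, b ≤ v) (hb : b ∈ w) :
    cl [0] (u ++ (g :: w)) = cl [0] u + (if g ∈ rv [0] u then 0 else 1) + (cl [b] w + 1) := by
  rw [cl_append]
  simp only [cl]
  have h1 : cl (g :: (rv [0] u).filter (fun z => decide (z < g))) w = cl [] w := by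
    refine cl_small w [] _ (g :: (rv [0] u).filter (fun z => decide (z < g))) (by simp) ?_
    intro x hx y hy
    have h2 := hw y hy
    simp only [List.mem_cons, List.mem_filter, decide_eq_true_eq] at hx
    omega
  have h3 := cl_merge w [] [b] b (by simp) (by simp) hw
  rw [if_pos hb] at h3
  rw [h1, h3]
  omega

/-- Joining along the smallest letter. -/
theorem join_eq {u w : List ℕ} {b : ℕ} (hw : ∀ v ∈ w, b ≤ v) :
    cl [0] (u ++ (b :: w)) = cl [0] u + (if b ∈ rv [0] u then 0 else 1) + cl [b] w := by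
  rw [cl_append]
  simp only [cl]
  have h1 : cl (b :: (rv [0] u).filter (fun z => decide (z < b))) w = cl [b] w := by
    refine cl_small w [b] _ ((rv [0] u).filter (fun z => decide (z < b))) ?_ ?_
    · intro x
      simp
    · intro x hx y hy
      have h2 := hw y hy
      simp only [List.mem_filter, decide_eq_true_eq] at hx
      omega
  rw [h1]
  omega

/-- The least value of `y` after the position `m`. -/
def Gm (y : ℕ → ℕ) (m g : ℕ) : Prop := (∀ t, m < t → g ≤ y t) ∧ ∃ t, m < t ∧ y t = g

theorem exists_Gm (y : ℕ → ℕ) (m : ℕ) : ∃ g, Gm y m g := by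
  classical
  have hne : ∃ v, ∃ t, m < t ∧ y t = v := ⟨_, m + 1, by omega, rfl⟩
  exact ⟨Nat.find hne, fun t ht => Nat.find_min' hne ⟨t, ht, rfl⟩, Nat.find_spec hne⟩

variable {V : Ultrafilter ℕ}

/-- The main relation: if the colours of `h` and of `h + l` agree for typical `l`, then the least
value `g` after `h` is not `0`, and it is visible in the word of `h` if and only if it is the
lower limit `b`. -/
theorem rel_main (hV : FarU V) {h : ℕ} (hh : 0 < h)
    (hc : Sm V 2 (fun l => cf (h + l) = cf h)) {g b : ℕ} (hb0 : 0 < b)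
    (h1 : ∀ N, ∃ t, N < t ∧ ys (la h) t = b) (h2 : ∃ N, ∀ t, N < t → b ≤ ys (la h) t)
    (hg : Gm (ys (la h)) (mu h) g) :
    0 < g ∧ g ≤ b ∧ (g ∈ rv [0] (wd (ys (la h)) h) ↔ g = b) := by
  set y := ys (la h) with hy
  obtain ⟨r, -, hr⟩ := exists_const (U := V) (fun n => cl [b] (wd y n) % 2) 2
    (Eventually.of_forall fun n => Nat.mod_lt _ (by omega))
  have h3 := cnt_fin hV h1 h2 hr 1
  obtain ⟨t0, ht0, hyt⟩ := hg.2
  have h4 := Sm_far hV (k := 2) (by omega) (max t0 (mu h))
  obtain ⟨n, ⟨i1, i2, i3⟩, ⟨i4, i5⟩, i6⟩ := Sm_exists (Sm_and h3 (Sm_and h4 hc))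
  have i3' := i3 (by omega)
  have hsep : Sep h n := by unfold Pool.Agent.H645R2.HT.Sep; omega
  have hmn : mn y (mu h) (la n) = g := by
    refine le_antisymm ?_ ?_
    · rw [← hyt]; exact mn_le ht0 (by omega)
    · obtain ⟨t', h5, _, h6⟩ := mn_mem (y := y) hsep
      rw [h6]
      exact hg.1 t' h5
  have hgb : g ≤ b := by
    obtain ⟨t, ht, ht'⟩ := h1 (mu h)
    rw [← ht']
    exact hg.1 t ht
  have e1 : nz (h + n) = cl [0] (wd y h ++ (g :: wd y n)) := by
    unfold nz
    rw [la_add hh hsep, ← hy, wd_add hh i4 hsep, hmn]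
  have e2 : nz h = cl [0] (wd y h) := rfl
  rw [cf_eq_iff, e1, e2] at i6
  have hr0 : cl [b] (wd y n) % 2 = 0 := by omega
  rcases hgb.lt_or_eq with h5 | h5
  · rw [join_lt h5 i1 i3'] at i6
    by_cases h6 : g ∈ rv [0] (wd y h)
    · rw [if_pos h6] at i6
      omega
    · refine ⟨?_, hgb, ⟨fun h => absurd h h6, fun h => absurd h (by omega)⟩⟩
      by_contra h7
      have h8 : g = 0 := by omega
      subst h8
      exact h6 (mem_rv_of (fun _ _ => Nat.zero_le _) (Or.inr (by simp)))
  · subst h5
    rw [join_eq i1] at i6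
    refine ⟨hb0, le_rfl, ⟨fun _ => rfl, fun _ => ?_⟩⟩
    by_contra h6
    rw [if_neg h6] at i6
    omega

section comp

variable {α : Type*} [Primcodable α]

theorem c_cl0 {f : α → List ℕ} (hf : Computable f) : Computable fun a => cl [0] (f a) := by
  have h : Computable fun a => ((f a).foldl (fun (s : ℕ × List ℕ) x =>
      ((bif decide (x ∈ s.2) then s.1 else s.1 + 1),
      x :: s.2.filter (fun z => decide (z < x)))) (0, ([0] : List ℕ))).1 := by
    refine Computable.fst.comp (RE.list_foldl (g := fun _ => (0, ([0] : List ℕ)))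
      (h := fun (_ : α) (p : (ℕ × List ℕ) × ℕ) => ((bif decide (p.2 ∈ p.1.2) then p.1.1 else
        p.1.1 + 1), p.2 :: p.1.2.filter (fun z => decide (z < p.2)))) hf (Computable.const _) ?_)
    unfold Computable₂
    have h1 : Computable fun x : α × ((ℕ × List ℕ) × ℕ) =>
        x.2.1.2.filter (fun z => decide (z < x.2.2)) := c_filter (by fun_prop) (by fun_prop)
    have h2 : Computable fun x : α × ((ℕ × List ℕ) × ℕ) => decide (x.2.2 ∈ x.2.1.2) :=
      c_mem (by fun_prop) (by fun_prop)
    fun_prop
  refine h.of_eq fun a => ?_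
  rw [cl_foldl]
  omega

theorem rv_foldl (w : List ℕ) : ∀ (B : List ℕ),
    w.foldl (fun (s : List ℕ) x => x :: s.filter (fun z => decide (z < x))) B = rv B w := by
  induction w with
  | nil => intro B; simp [rv]
  | cons x w ih =>
    intro B
    rw [List.foldl_cons, ih]
    simp only [rv]

theorem c_rv0 {f : α → List ℕ} (hf : Computable f) : Computable fun a => rv [0] (f a) := by
  have h : Computable fun a => (f a).foldl (fun (s : List ℕ) x =>
      x :: s.filter (fun z => decide (z < x))) [0] := by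
    refine RE.list_foldl (h := fun (_ : α) (p : List ℕ × ℕ) =>
      p.2 :: p.1.filter (fun z => decide (z < p.2))) hf (Computable.const _) ?_
    unfold Computable₂
    exact ccons (by fun_prop) (c_filter (by fun_prop) (by fun_prop))
  exact h.of_eq fun a => rv_foldl _ _

theorem c_word {f : α → ℕ} (hf : Computable f) : Computable fun a => wd (ys (la (f a))) (f a) := by
  refine c_wd (y := fun (a : α) t => ys (la (f a)) t) ?_ hf
  exact c_ys (c_la (by fun_prop)) (by fun_prop)

theorem c_cf : Computable cf := by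
  unfold cf nz
  have h1 : Computable fun n : ℕ => cl [0] (wd (ys (la n)) n) % 2 :=
    c_mod (c_cl0 (c_word (f := fun n : ℕ => n) (by fun_prop))) (by fun_prop)
  exact c_deq h1 (by fun_prop)

end comp

end Pool.Agent.N640.HU
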