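import Pool.Agent.H645R2.HT.Univ
import Pool.Agent.TH747.HT.Pi3

/-! For each `x` a computable sequence with values in `ℕ` whose lower limit is finite and bounds
the witnesses of the `Σ⁰₂` facts with index `≤ x`; the value `0` indicates a new enumeration of a
number `≤ x`. -/

namespace Pool.Agent.N640.HU

open Filter Pool.Agent.H645R2.HT Pool.Agent.TH747.HT Pool.Agent.Helper446 Pool.Agent.Helper446.RE

/-- The least `z < t` which is enumerated at stage `t + 1`, or `t`. -/
def aa (t : ℕ) : ℕ := lst (fun z => W0 (t + 1) z && !(W0 t z)) t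

/-- `z` is the least number outside `W0` at stage `t` with its value of `p0`. -/
def cnd (t z : ℕ) : Bool :=
  !(W0 t z) && allB (fun w => !(decide (p0 w = p0 z)) || W0 t w) z

/-- A strict upper bound of the candidates `z < aa t` with `p0 z ≤ x`. -/
def MM (x t : ℕ) : ℕ :=
  lst (fun m => allB (fun z => !(cnd t z && decide (p0 z < x + 1)) || decide (z < m)) (aa t)) (aa t)

/-- The sequence. -/
def ys (x t : ℕ) : ℕ :=
  bif exB (fun z => W0 t z && !(W0 (t - 1) z)) (x + 1) then 0 else MM x t + 1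

theorem cnd_iff {t z : ℕ} : cnd t z = true ↔
    W0 t z = false ∧ ∀ w < z, p0 w = p0 z → W0 t w = true := by
  unfold cnd
  rw [Bool.and_eq_true, allB_iff]
  simp only [Bool.not_eq_true', Bool.or_eq_true, decide_eq_false_iff_not]
  refine and_congr_right fun _ => forall_congr' fun w => imp_congr_right fun _ => ?_
  tauto

theorem MM_gt {x t z : ℕ} (h1 : z < aa t) (h2 : cnd t z = true) (h3 : p0 z ≤ x) : z < MM x t := by
  unfold MM
  rcases lst_spec (fun m => allB (fun z => !(cnd t z && decide (p0 z < x + 1)) ||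
    decide (z < m)) (aa t)) (aa t) with ⟨h4, h5, _⟩ | ⟨h4, _⟩
  · rw [allB_iff] at h5
    have h6 := h5 z h1
    rw [h2] at h6
    simpa [show p0 z < x + 1 by omega] using h6
  · rw [h4]; exact h1

theorem MM_le {x t m : ℕ} (h : ∀ z < aa t, cnd t z = true → p0 z ≤ x → z < m) : MM x t ≤ m := by
  unfold MM
  rcases Nat.lt_or_ge m (aa t) with h1 | h1
  · refine (lst_lt_of h1 ?_).1
    rw [allB_iff]
    intro z hz
    by_cases hc : cnd t z = true ∧ p0 z ≤ x
    · have := h z hz hc.1 hc.2
      simp [this]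
    · rw [not_and] at hc
      by_cases hc1 : cnd t z = true
      · have := hc hc1
        simp [show ¬ p0 z < x + 1 by omega]
      · simp [hc1]
  · rcases lst_spec (fun m => allB (fun z => !(cnd t z && decide (p0 z < x + 1)) ||
      decide (z < m)) (aa t)) (aa t) with ⟨h4, _, _⟩ | ⟨h4, _⟩
    · omega
    · omega

/-- `aa` tends to infinity. -/
theorem aa_large (M : ℕ) : ∃ N, ∀ t, N ≤ t → M ≤ aa t := by
  obtain ⟨N, hN⟩ := exists_stage mon_W0 M
  refine ⟨max N M, fun t ht => ?_⟩
  unfold aa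
  rcases lst_spec (fun z => W0 (t + 1) z && !(W0 t z)) t with ⟨h1, h2, _⟩ | ⟨h1, _⟩
  · by_contra hc
    push Not at hc
    simp only [Bool.and_eq_true, Bool.not_eq_true'] at h2
    have h3 := hN _ hc.le _ h2.1
    have h4 := mon_W0 N t _ (by omega) h3
    rw [h2.2] at h4
    cases h4
  · omega

theorem aa_le {t z : ℕ} (h1 : z < t) (h2 : W0 (t + 1) z = true) (h3 : W0 t z = false) :
    aa t ≤ z := by
  unfold aa
  exact (lst_lt_of h1 (by simp [h2, h3])).1

theorem aa_le_self (t : ℕ) : aa t ≤ t := by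
  unfold aa
  rcases lst_spec (fun z => W0 (t + 1) z && !(W0 t z)) t with ⟨h1, _, _⟩ | ⟨h1, _⟩ <;> omega

/-- True stages. -/
theorem exists_true (N : ℕ) : ∃ t, N ≤ t ∧ ∀ t', t ≤ t' → aa t ≤ aa t' := by
  classical
  have hne : ∃ v, ∃ t, N ≤ t ∧ aa t = v := ⟨_, N, le_rfl, rfl⟩
  obtain ⟨t, ht, hv⟩ := Nat.find_spec hne
  refine ⟨t, ht, fun t' ht' => ?_⟩
  rw [hv]
  exact Nat.find_min' hne ⟨t', by omega, rfl⟩

/-- At a true stage the numbers below `aa t` have been enumerated or will never be. -/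
theorem true_out {t z : ℕ} (ht : ∀ t', t ≤ t' → aa t ≤ aa t') (hz : z < aa t)
    (h : W0 t z = false) (s : ℕ) : W0 s z = false := by
  by_contra hc
  rw [Bool.not_eq_false] at hc
  have key : ∀ k, W0 (t + k) z = false := by
    intro k
    induction k with
    | zero => exact h
    | succ k ih =>
      by_contra hc2
      rw [Bool.not_eq_false] at hc2
      have h1 := aa_le (t := t + k) (z := z) (by have := aa_le_self t; omega) hc2 ih
      have h2 := ht (t + k) (by omega)
      omega
  have h1 := mon_W0 s (t + s) z (by omega) hc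
  rw [key s] at h1
  cases h1

/-- The least witnesses. -/
def Zs (x z : ℕ) : Prop :=
  p0 z ≤ x ∧ (∀ s, W0 s z = false) ∧ ∀ w < z, p0 w = p0 z → ∃ s, W0 s w = true

theorem Zs_bdd (x : ℕ) : ∃ B, ∀ z, Zs x z → z < B := by
  have h1 : ∀ n, ∃ B, ∀ z, p0 z = n → (∀ s, W0 s z = false) →
      (∀ w < z, p0 w = p0 z → ∃ s, W0 s w = true) → z < B := by
    intro n
    by_cases h : ∃ z, p0 z = n ∧ (∀ s, W0 s z = false) ∧
        (∀ w < z, p0 w = p0 z → ∃ s, W0 s w = true)
    · obtain ⟨z0, h1, h2, h3⟩ := h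
      refine ⟨z0 + 1, fun z h4 h5 h6 => ?_⟩
      by_contra hc
      push Not at hc
      obtain ⟨s, hs⟩ := h6 z0 (by omega) (by rw [h1, h4])
      rw [h2 s] at hs
      cases hs
    · refine ⟨0, fun z h4 h5 h6 => absurd ⟨z, h4, h5, h6⟩ h⟩
  induction x with
  | zero =>
    obtain ⟨B, hB⟩ := h1 0
    exact ⟨B, fun z ⟨h2, h3, h4⟩ => hB z (by omega) h3 h4⟩
  | succ x ih =>
    obtain ⟨B, hB⟩ := h1 (x + 1)
    obtain ⟨B', hB'⟩ := ih
    refine ⟨max B B', fun z hz => ?_⟩
    obtain ⟨h2, h3, h4⟩ := hz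
    rcases Nat.lt_or_ge x (p0 z) with h5 | h5
    · have := hB z (by omega) h3 h4
      omega
    · have := hB' z ⟨h5, h3, h4⟩
      omega

/-- The lower limit of the sequence `ys x`. -/
theorem exists_lim (x : ℕ) : ∃ b, 0 < b ∧ (∀ N, ∃ t, N < t ∧ ys x t = b) ∧
    (∃ N, ∀ t, N < t → b ≤ ys x t) ∧
    ∀ n ≤ x, A W0 p0 n → ∃ z < b, p0 z = n ∧ ∀ s, W0 s z = false := by
  classical
  have hB := Zs_bdd x
  have hspec := Nat.find_spec hB
  have hmin : Nat.find hB = 0 ∨ ∃ z, Zs x z ∧ Nat.find hB ≤ z + 1 := by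
    rcases Nat.eq_zero_or_pos (Nat.find hB) with h | h
    · exact Or.inl h
    · right
      have h1 := Nat.find_min hB (m := Nat.find hB - 1) (by omega)
      push Not at h1
      obtain ⟨z, hz, h2⟩ := h1
      exact ⟨z, hz, by omega⟩
  generalize Nat.find hB = b0 at hspec hmin
  -- no new enumeration
  obtain ⟨N1, hN1⟩ := exists_stage mon_W0 x
  have hne : ∀ t, N1 < t → ys x t = MM x t + 1 := by
    intro t ht
    unfold ys
    have : exB (fun z => W0 t z && !(W0 (t - 1) z)) (x + 1) = false := by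
      by_contra hc
      rw [Bool.not_eq_false, exB_iff] at hc
      obtain ⟨z, hz, h2⟩ := hc
      simp only [Bool.and_eq_true, Bool.not_eq_true'] at h2
      have h3 := mon_W0 N1 (t - 1) z (by omega) (hN1 z (by omega) t h2.1)
      rw [h2.2] at h3
      cases h3
    rw [this]
    rfl
  -- the candidate for `b0`
  have hlow : ∃ N, ∀ t, N < t → b0 ≤ MM x t := by
    rcases hmin with h | ⟨z, ⟨h1, h2, h3⟩, h4⟩
    · exact ⟨0, fun t _ => by omega⟩
    · obtain ⟨N2, hN2⟩ := aa_large (z + 1)
      obtain ⟨N3, hN3⟩ := exists_stage mon_W0 z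
      refine ⟨max N2 N3, fun t ht => ?_⟩
      have h5 : z < MM x t := by
        refine MM_gt (by have := hN2 t (by omega); omega) ?_ h1
        rw [cnd_iff]
        refine ⟨h2 t, fun w hw h6 => ?_⟩
        obtain ⟨s, hs⟩ := h3 w hw h6
        exact mon_W0 N3 t w (by omega) (hN3 w hw.le s hs)
      omega
  obtain ⟨N2, hN2⟩ := hlow
  refine ⟨b0 + 1, by omega, fun N => ?_, ⟨max N1 N2, fun t ht => ?_⟩, fun n hn hA => ?_⟩
  · obtain ⟨t, ht, ht'⟩ := exists_true (max (N + 1) (max (N1 + 1) (N2 + 1)))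
    refine ⟨t, by omega, ?_⟩
    rw [hne t (by omega)]
    have h1 : MM x t ≤ b0 := by
      refine MM_le fun z hz hc hx => hspec z ⟨hx, ?_, fun w hw h2 => ?_⟩
      · exact true_out ht' hz (cnd_iff.1 hc).1
      · exact ⟨t, (cnd_iff.1 hc).2 w hw h2⟩
    have h2 := hN2 t (by omega)
    omega
  · rw [hne t (by omega)]
    have := hN2 t (by omega)
    omega
  · obtain ⟨z1, hz1, hz2⟩ := hA
    have hex : ∃ z, p0 z = n ∧ ∀ s, W0 s z = false := ⟨z1, hz1, hz2⟩
    obtain ⟨h1, h2⟩ := Nat.find_spec hex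
    have h3 : ∀ w < Nat.find hex, p0 w = n → ∃ s, W0 s w = true := by
      intro w hw h4
      have h5 := Nat.find_min hex hw
      push Not at h5
      obtain ⟨s, hs⟩ := h5 h4
      exact ⟨s, by simpa using hs⟩
    refine ⟨Nat.find hex, ?_, h1, h2⟩
    have := hspec (Nat.find hex) ⟨by omega, h2, fun w hw h4 => h3 w hw (by rw [h4, h1])⟩
    omega

/-- A new enumeration gives the value `0`. -/
theorem ys_zero {x z m s : ℕ} (hz : z ≤ x) (h1 : W0 s z = true) (h2 : W0 m z = false) :
    ∃ t, m < t ∧ ys x t = 0 := by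
  classical
  have hex : ∃ s, W0 s z = true := ⟨s, h1⟩
  have h3 := Nat.find_spec hex
  have h4 : m < Nat.find hex := by
    by_contra hc
    push Not at hc
    have := mon_W0 _ m z hc h3
    rw [h2] at this
    cases this
  refine ⟨Nat.find hex, h4, ?_⟩
  have h5 : W0 (Nat.find hex - 1) z = false := by
    have := Nat.find_min hex (m := Nat.find hex - 1) (by omega)
    simpa using this
  unfold ys
  have : exB (fun z => W0 (Nat.find hex) z && !(W0 (Nat.find hex - 1) z)) (x + 1) = true := by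
    rw [exB_iff]
    exact ⟨z, by omega, by simp [h3, h5]⟩
  rw [this]
  rfl

section comp

variable {α : Type*} [Primcodable α]

theorem c_aa {f : α → ℕ} (hf : Computable f) : Computable fun a => aa (f a) := by
  unfold aa
  refine c_lst (q := fun (a : α) z => W0 (f a + 1) z && !(W0 (f a) z)) ?_ hf
  have h1 := c_W0.comp (g := fun p : α × ℕ => (f p.1 + 1, p.2)) (by fun_prop)
  have h2 := c_W0.comp (g := fun p : α × ℕ => (f p.1, p.2)) (by fun_prop)
  exact cand h1 (cnot h2)

theorem c_cnd {f g : α → ℕ} (hf : Computable f) (hg : Computable g) :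
    Computable fun a => cnd (f a) (g a) := by
  unfold cnd
  refine cand (cnot (c_W0.comp (g := fun a => (f a, g a)) (by fun_prop))) ?_
  refine computable_allB (q := fun (a : α) w => !(decide (p0 w = p0 (g a))) || W0 (f a) w) ?_ hg
  unfold Computable₂
  refine cor (cnot (c_deq ?_ ?_)) (c_W0.comp (g := fun p : α × ℕ => (f p.1, p.2)) (by fun_prop))
  · exact c_p0.comp (by fun_prop)
  · exact c_p0.comp (by fun_prop)

theorem c_MM {f g : α → ℕ} (hf : Computable f) (hg : Computable g) :
    Computable fun a => MM (f a) (g a) := by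
  unfold MM
  refine c_lst (q := fun (a : α) m => allB (fun z => !(cnd (g a) z && decide (p0 z < f a + 1)) ||
    decide (z < m)) (aa (g a))) ?_ (c_aa hg)
  refine computable_allB (α := α × ℕ) (q := fun x z => !(cnd (g x.1) z &&
    decide (p0 z < f x.1 + 1)) || decide (z < x.2)) ?_ (c_aa (by fun_prop))
  unfold Computable₂
  refine cor (cnot (cand (c_cnd (by fun_prop) (by fun_prop)) (c_dlt ?_ (by fun_prop))))
    (c_dlt (by fun_prop) (by fun_prop))
  exact c_p0.comp (by fun_prop)

theorem c_ys {f g : α → ℕ} (hf : Computable f) (hg : Computable g) :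
    Computable fun a => ys (f a) (g a) := by
  unfold ys
  refine ccond ?_ (Computable.const 0) (Computable.succ.comp (c_MM hf hg))
  refine computable_exB (q := fun (a : α) z => W0 (g a) z && !(W0 (g a - 1) z)) ?_ (by fun_prop)
  unfold Computable₂
  have h1 := c_W0.comp (g := fun p : α × ℕ => (g p.1, p.2)) (by fun_prop)
  have h2 := c_W0.comp (g := fun p : α × ℕ => (g p.1 - 1, p.2)) (by fun_prop)
  exact cand h1 (cnot h2)

end comp

end Pool.Agent.N640.HU
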